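import Mathlib
import Pool.Agent.Y201.C3.Stm

/-! # Project C3, job CB: the third intersection map on a conic bundle (helper246) -/

set_option autoImplicit false

namespace Pool.Agent.Y246.C3

open MvPolynomial Pool.Agent.TH314.PD Pool.Agent.Y201.C3

noncomputable section

variable {T : Fin 6 → Fin 6 → Fin 6 → ℂ}

section Tri

variable {R : Type} [CommRing R] [Algebra ℂ R]

lemma Bf_add1 (x x' y z : Fin 6 → R) :
    Bf T (fun i => x i + x' i) y z = Bf T x y z + Bf T x' y z := by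
  unfold Bf
  simp only [mul_add, add_mul, Finset.sum_add_distrib]

lemma Bf_smul1 (a : R) (x y z : Fin 6 → R) :
    Bf T (fun i => a * x i) y z = a * Bf T x y z := by
  unfold Bf
  simp only [Finset.mul_sum]
  refine Finset.sum_congr rfl fun i _ => Finset.sum_congr rfl fun j _ =>
    Finset.sum_congr rfl fun k _ => by ring

lemma Bf_comm12 (hT : SymT T) (x y z : Fin 6 → R) : Bf T x y z = Bf T y x z := by
  unfold Bf
  rw [Finset.sum_comm]
  refine Finset.sum_congr rfl fun i _ => Finset.sum_congr rfl fun j _ =>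
    Finset.sum_congr rfl fun k _ => ?_
  rw [(hT j i k).1]
  ring

lemma Bf_comm23 (hT : SymT T) (x y z : Fin 6 → R) : Bf T x y z = Bf T x z y := by
  unfold Bf
  refine Finset.sum_congr rfl fun i _ => ?_
  rw [Finset.sum_comm]
  refine Finset.sum_congr rfl fun j _ => Finset.sum_congr rfl fun k _ => ?_
  rw [(hT i k j).2]
  ring

lemma Bf_add2 (hT : SymT T) (x y y' z : Fin 6 → R) :
    Bf T x (fun i => y i + y' i) z = Bf T x y z + Bf T x y' z := by
  rw [Bf_comm12 hT, Bf_add1, Bf_comm12 hT y, Bf_comm12 hT y']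

lemma Bf_smul2 (hT : SymT T) (a : R) (x y z : Fin 6 → R) :
    Bf T x (fun i => a * y i) z = a * Bf T x y z := by
  rw [Bf_comm12 hT, Bf_smul1, Bf_comm12 hT y]

lemma Bf_add3 (hT : SymT T) (x y z z' : Fin 6 → R) :
    Bf T x y (fun i => z i + z' i) = Bf T x y z + Bf T x y z' := by
  rw [Bf_comm23 hT, Bf_add2 hT, Bf_comm23 hT x z, Bf_comm23 hT x z']

lemma Bf_smul3 (hT : SymT T) (a : R) (x y z : Fin 6 → R) :
    Bf T x y (fun i => a * z i) = a * Bf T x y z := by
  rw [Bf_comm23 hT, Bf_smul2 hT, Bf_comm23 hT x z]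

lemma Bf_E (i j k : Fin 6) : Bf T (E i : Fin 6 → R) (E j) (E k) = algebraMap ℂ R (T i j k) := by
  unfold Bf E
  rw [Finset.sum_eq_single i, Finset.sum_eq_single j, Finset.sum_eq_single k]
  · simp
  · intro b _ hb
    rw [Pi.single_eq_of_ne hb, mul_zero]
  · intro h
    exact absurd (Finset.mem_univ _) h
  · intro b _ hb
    refine Finset.sum_eq_zero fun k' _ => ?_
    rw [Pi.single_eq_of_ne hb, mul_zero, zero_mul]
  · intro h
    exact absurd (Finset.mem_univ _) h
  · intro b _ hb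
    refine Finset.sum_eq_zero fun j' _ => Finset.sum_eq_zero fun k' _ => ?_
    rw [Pi.single_eq_of_ne hb, mul_zero, zero_mul, zero_mul]
  · intro h
    exact absurd (Finset.mem_univ _) h

lemma Bf_E0 (hL : LineT T) {i j k : Fin 6} (hi : i.val < 2) (hj : j.val < 2) (hk : k.val < 2) :
    Bf T (E i : Fin 6 → R) (E j) (E k) = 0 := by
  rw [Bf_E, hL i j k hi hj hk, map_zero]

lemma alg32 : algebraMap ℂ R (3 / 2) * 2 = 3 := by
  have h : (algebraMap ℂ R) ((3 / 2 : ℂ) * 2) = (algebraMap ℂ R) 3 := by norm_num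
  rw [map_mul, map_ofNat, map_ofNat] at h
  exact h

/-- the quadratic form of the conic -/
def qf (A : Matrix (Fin 3) (Fin 3) R) (V : Fin 3 → R) : R := ∑ i, ∑ j, V i * A i j * V j

lemma qf_cm (y : Fin 6 → R) (V : Fin 3 → R) :
    qf (cm T y) V = 3 * Bf T (E 0) (E 0) y * V 0 ^ 2 + 6 * Bf T (E 0) (E 1) y * V 0 * V 1 +
      3 * Bf T (E 1) (E 1) y * V 1 ^ 2 + 3 * Bf T (E 0) y y * V 0 * V 2 +
      3 * Bf T (E 1) y y * V 1 * V 2 + Bf T y y y * V 2 ^ 2 := by
  have h := alg32 (R := R)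
  simp only [qf, cm, Fin.sum_univ_three, Matrix.of_apply, Matrix.cons_val', Matrix.cons_val_zero,
    Matrix.cons_val_one, Matrix.cons_val_two, Matrix.head_cons, Matrix.tail_cons]
  linear_combination (V 0 * V 2 * Bf T (E 0) y y + V 1 * V 2 * Bf T (E 1) y y) * h

/-- the key identity -/
lemma key (hT : SymT T) (hL : LineT T) (y : Fin 6 → R) (V : Fin 3 → R) :
    Bf T (fun i => V 0 * E 0 i + (V 1 * E 1 i + V 2 * y i))
      (fun i => V 0 * E 0 i + (V 1 * E 1 i + V 2 * y i))
      (fun i => V 0 * E 0 i + (V 1 * E 1 i + V 2 * y i)) = V 2 * qf (cm T y) V := by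
  rw [qf_cm]
  simp only [Bf_add1, Bf_add2 hT, Bf_add3 hT, Bf_smul1, Bf_smul2 hT, Bf_smul3 hT]
  have e000 : Bf T (E 0 : Fin 6 → R) (E 0) (E 0) = 0 := Bf_E0 hL (by decide) (by decide) (by decide)
  have e001 : Bf T (E 0 : Fin 6 → R) (E 0) (E 1) = 0 := Bf_E0 hL (by decide) (by decide) (by decide)
  have e010 : Bf T (E 0 : Fin 6 → R) (E 1) (E 0) = 0 := Bf_E0 hL (by decide) (by decide) (by decide)
  have e011 : Bf T (E 0 : Fin 6 → R) (E 1) (E 1) = 0 := Bf_E0 hL (by decide) (by decide) (by decide)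
  have e100 : Bf T (E 1 : Fin 6 → R) (E 0) (E 0) = 0 := Bf_E0 hL (by decide) (by decide) (by decide)
  have e101 : Bf T (E 1 : Fin 6 → R) (E 0) (E 1) = 0 := Bf_E0 hL (by decide) (by decide) (by decide)
  have e110 : Bf T (E 1 : Fin 6 → R) (E 1) (E 0) = 0 := Bf_E0 hL (by decide) (by decide) (by decide)
  have e111 : Bf T (E 1 : Fin 6 → R) (E 1) (E 1) = 0 := Bf_E0 hL (by decide) (by decide) (by decide)
  rw [e000, e001, e010, e011, e100, e101, e110, e111,
    Bf_comm12 hT y (E 0) (E 0), Bf_comm23 hT (E 0) y (E 0),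
    Bf_comm12 hT y (E 0) (E 1), Bf_comm23 hT (E 0) y (E 1),
    Bf_comm12 hT y (E 1) (E 0), Bf_comm23 hT (E 1) y (E 0),
    Bf_comm12 hT y (E 1) (E 1), Bf_comm23 hT (E 1) y (E 1),
    Bf_comm12 hT (E 1) (E 0) y,
    Bf_comm12 hT y (E 0) y, Bf_comm12 hT y (E 1) y,
    Bf_comm23 hT y y (E 0), Bf_comm12 hT y (E 0) y,
    Bf_comm23 hT y y (E 1), Bf_comm12 hT y (E 1) y]
  ring

end Tri

section Maps

variable {R S : Type} [CommRing R] [Algebra ℂ R] [CommRing S] [Algebra ℂ S]

lemma Bf_map (f : R →ₐ[ℂ] S) (x y z : Fin 6 → R) :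
    f (Bf T x y z) = Bf T (fun i => f (x i)) (fun i => f (y i)) (fun i => f (z i)) := by
  unfold Bf
  simp only [map_sum, map_mul, AlgHom.commutes]

lemma E_map (f : R →ₐ[ℂ] S) (i : Fin 6) : (fun j => f ((E i : Fin 6 → R) j)) = E i := by
  funext j
  unfold E
  by_cases h : j = i
  · subst h
    rw [Pi.single_eq_same, Pi.single_eq_same, map_one]
  · rw [Pi.single_eq_of_ne h, Pi.single_eq_of_ne h, map_zero]

lemma qf_cm_map (f : R →ₐ[ℂ] S) (y : Fin 6 → R) (V : Fin 3 → R) :
    f (qf (cm T y) V) = qf (cm T fun i => f (y i)) (fun i => f (V i)) := by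
  rw [qf_cm, qf_cm]
  simp only [map_add, map_mul, map_pow, map_ofNat, Bf_map, E_map]

lemma cm_map (f : R →ₐ[ℂ] S) (y : Fin 6 → R) (i j : Fin 3) :
    f (cm T y i j) = cm T (fun i => f (y i)) i j := by
  fin_cases i <;> fin_cases j <;> simp [cm, Bf_map, E_map, map_ofNat f 3]

lemma cm_symm (y : Fin 6 → R) : (cm T y).IsSymm := by
  refine Matrix.IsSymm.ext fun i j => ?_
  fin_cases i <;> fin_cases j <;> simp [cm]

lemma qf_scale (hT : SymT T) (c a : R) (y : Fin 6 → R) (V : Fin 3 → R) :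
    qf (cm T fun i => c * y i) ![a * (c * V 0), a * (c * V 1), a * V 2] =
      c ^ 3 * a ^ 2 * qf (cm T y) V := by
  rw [qf_cm, qf_cm]
  simp only [Bf_smul1, Bf_smul2 hT, Bf_smul3 hT, Matrix.cons_val_zero,
    Matrix.cons_val_one, Matrix.cons_val_two, Matrix.head_cons, Matrix.tail_cons]
  ring

end Maps

section Hom

lemma hom_Bf {x y z : Fin 6 → MvPolynomial (Fin 4) ℂ} {a b c : ℕ}
    (hx : ∀ i, (x i).IsHomogeneous a) (hy : ∀ i, (y i).IsHomogeneous b)
    (hz : ∀ i, (z i).IsHomogeneous c) : (Bf T x y z).IsHomogeneous (a + b + c) := by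
  unfold Bf
  refine IsHomogeneous.sum _ _ _ fun i _ => IsHomogeneous.sum _ _ _ fun j _ =>
    IsHomogeneous.sum _ _ _ fun k _ => ?_
  have h := (((isHomogeneous_C (Fin 4) (T i j k)).mul (hx i)).mul (hy j)).mul (hz k)
  rwa [zero_add] at h

lemma hom_E (i j : Fin 6) : ((E i : Fin 6 → MvPolynomial (Fin 4) ℂ) j).IsHomogeneous 0 := by
  unfold E
  by_cases h : j = i
  · subst h
    rw [Pi.single_eq_same]
    exact isHomogeneous_one _ _
  · rw [Pi.single_eq_of_ne h]
    exact isHomogeneous_zero _ _ _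

lemma hom_yy (i : Fin 6) : (yy i).IsHomogeneous 1 := by
  fin_cases i
  · exact isHomogeneous_zero _ _ _
  · exact isHomogeneous_zero _ _ _
  · exact isHomogeneous_X _ _
  · exact isHomogeneous_X _ _
  · exact isHomogeneous_X _ _
  · exact isHomogeneous_X _ _

lemma hom_qf {D : ℕ} {V : Fin 3 → MvPolynomial (Fin 4) ℂ} (h0 : (V 0).IsHomogeneous (D + 1))
    (h1 : (V 1).IsHomogeneous (D + 1)) (h2 : (V 2).IsHomogeneous D) :
    (qf (cm T yy) V).IsHomogeneous (2 * D + 3) := by
  rw [qf_cm]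
  have c3 : ((3 : MvPolynomial (Fin 4) ℂ)).IsHomogeneous 0 := by
    have := isHomogeneous_C (Fin 4) (3 : ℂ)
    rwa [map_ofNat] at this
  have c6 : ((6 : MvPolynomial (Fin 4) ℂ)).IsHomogeneous 0 := by
    have := isHomogeneous_C (Fin 4) (6 : ℂ)
    rwa [map_ofNat] at this
  have t1 := (c3.mul (hom_Bf (T := T) (hom_E 0) (hom_E 0) hom_yy)).mul (h0.pow 2)
  have t2 := ((c6.mul (hom_Bf (T := T) (hom_E 0) (hom_E 1) hom_yy)).mul h0).mul h1
  have t3 := (c3.mul (hom_Bf (T := T) (hom_E 1) (hom_E 1) hom_yy)).mul (h1.pow 2)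
  have t4 := ((c3.mul (hom_Bf (T := T) (hom_E 0) hom_yy hom_yy)).mul h0).mul h2
  have t5 := ((c3.mul (hom_Bf (T := T) (hom_E 1) hom_yy hom_yy)).mul h1).mul h2
  have t6 := (hom_Bf (T := T) hom_yy hom_yy hom_yy).mul (h2.pow 2)
  rw [show 0 + (0 + 0 + 1) + (D + 1) * 2 = 2 * D + 3 by ring] at t1 t3
  rw [show 0 + (0 + 0 + 1) + (D + 1) + (D + 1) = 2 * D + 3 by ring] at t2
  rw [show 0 + (0 + 1 + 1) + (D + 1) + D = 2 * D + 3 by ring] at t4 t5
  rw [show (1 + 1 + 1) + D * 2 = 2 * D + 3 by ring] at t6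
  exact ((((t1.add t2).add t3).add t4).add t5).add t6

end Hom

section Fields

variable {M : Type} [Field M] [Algebra ℂ M]

/-- elements of the field of ratios -/
lemma exists_form {m : ℕ} (q : Fin m → M) (z : M) (hz : z ∈ ratioField q) :
    ∃ (D : ℕ) (P Q : MvPolynomial (Fin m) ℂ), P.IsHomogeneous D ∧ Q.IsHomogeneous D ∧
      aeval q Q ≠ 0 ∧ aeval q P = aeval q Q * z := by
  unfold ratioField at hz
  induction hz using IntermediateField.adjoin_induction with
  | mem z hz =>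
    obtain ⟨i, j, rfl⟩ := hz
    by_cases h : q j = 0
    · refine ⟨0, 0, 1, isHomogeneous_zero _ _ _, isHomogeneous_one _ _, by simp, by simp [h]⟩
    · refine ⟨1, X i, X j, isHomogeneous_X _ _, isHomogeneous_X _ _, by simpa using h, ?_⟩
      rw [aeval_X, aeval_X]
      field_simp
  | algebraMap a =>
    exact ⟨0, C a, 1, isHomogeneous_C _ _, isHomogeneous_one _ _, by simp, by simp⟩
  | add z w _ _ ihz ihw =>
    obtain ⟨D, P, Q, h1, h2, h3, h4⟩ := ihz
    obtain ⟨D', P', Q', h1', h2', h3', h4'⟩ := ihw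
    refine ⟨D + D', P * Q' + Q * P', Q * Q', (h1.mul h2').add (h2.mul h1'), h2.mul h2', ?_, ?_⟩
    · rw [map_mul]
      exact mul_ne_zero h3 h3'
    · rw [map_add, map_mul, map_mul, map_mul, h4, h4']
      ring
  | inv z _ ih =>
    obtain ⟨D, P, Q, h1, h2, h3, h4⟩ := ih
    by_cases hz : z = 0
    · subst hz
      refine ⟨0, 0, 1, isHomogeneous_zero _ _ _, isHomogeneous_one _ _, by simp, by simp⟩
    · refine ⟨D, Q, P, h2, h1, ?_, ?_⟩
      · rw [h4]
        exact mul_ne_zero h3 hz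
      · rw [h4]
        field_simp
  | mul z w _ _ ihz ihw =>
    obtain ⟨D, P, Q, h1, h2, h3, h4⟩ := ihz
    obtain ⟨D', P', Q', h1', h2', h3', h4'⟩ := ihw
    refine ⟨D + D', P * P', Q * Q', h1.mul h1', h2.mul h2', ?_, ?_⟩
    · rw [map_mul]
      exact mul_ne_zero h3 h3'
    · rw [map_mul, map_mul, h4, h4']
      ring

lemma exists_form3 {m : ℕ} (q : Fin m → M) (W : Fin 3 → M) (hW : ∀ i, W i ∈ ratioField q) :
    ∃ (D : ℕ) (P : Fin 3 → MvPolynomial (Fin m) ℂ) (Q : MvPolynomial (Fin m) ℂ),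
      (∀ i, (P i).IsHomogeneous D) ∧ aeval q Q ≠ 0 ∧ ∀ i, aeval q (P i) = aeval q Q * W i := by
  choose D P Q h1 h2 h3 h4 using fun i => exists_form q (W i) (hW i)
  refine ⟨D 0 + D 1 + D 2, ![P 0 * Q 1 * Q 2, Q 0 * P 1 * Q 2, Q 0 * Q 1 * P 2],
    Q 0 * Q 1 * Q 2, ?_, ?_, ?_⟩
  · intro i
    fin_cases i
    · exact ((h1 0).mul (h2 1)).mul (h2 2)
    · exact ((h2 0).mul (h1 1)).mul (h2 2)
    · exact ((h2 0).mul (h2 1)).mul (h1 2)
  · rw [map_mul, map_mul]
    exact mul_ne_zero (mul_ne_zero (h3 0) (h3 1)) (h3 2)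
  · intro i
    fin_cases i
    · change aeval q (P 0 * Q 1 * Q 2) = aeval q (Q 0 * Q 1 * Q 2) * W 0
      rw [map_mul, map_mul, map_mul, map_mul, h4 0]
      ring
    · change aeval q (Q 0 * P 1 * Q 2) = aeval q (Q 0 * Q 1 * Q 2) * W 1
      rw [map_mul, map_mul, map_mul, map_mul, h4 1]
      ring
    · change aeval q (Q 0 * Q 1 * P 2) = aeval q (Q 0 * Q 1 * Q 2) * W 2
      rw [map_mul, map_mul, map_mul, map_mul, h4 2]
      ring

/-- the vector `(0, 0, q 0 / q 3, q 1 / q 3, q 2 / q 3, 1)` -/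
def ym (q : Fin 4 → M) : Fin 6 → M := ![0, 0, q 0 / q 3, q 1 / q 3, q 2 / q 3, q 3 / q 3]

lemma aeval_yy (q : Fin 4 → M) (h3 : q 3 ≠ 0) :
    (fun i => aeval q (yy i)) = fun i => q 3 * ym q i := by
  funext i
  fin_cases i
  · change aeval q (0 : MvPolynomial (Fin 4) ℂ) = q 3 * 0
    rw [map_zero, mul_zero]
  · change aeval q (0 : MvPolynomial (Fin 4) ℂ) = q 3 * 0
    rw [map_zero, mul_zero]
  · change aeval q (X 0 : MvPolynomial (Fin 4) ℂ) = q 3 * (q 0 / q 3)
    rw [aeval_X, mul_div_cancel₀ _ h3]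
  · change aeval q (X 1 : MvPolynomial (Fin 4) ℂ) = q 3 * (q 1 / q 3)
    rw [aeval_X, mul_div_cancel₀ _ h3]
  · change aeval q (X 2 : MvPolynomial (Fin 4) ℂ) = q 3 * (q 2 / q 3)
    rw [aeval_X, mul_div_cancel₀ _ h3]
  · change aeval q (X 3 : MvPolynomial (Fin 4) ℂ) = q 3 * (q 3 / q 3)
    rw [aeval_X, mul_div_cancel₀ _ h3]

/-- the conic is anisotropic over the field of ratios -/
lemma aniso (hT : SymT T)
    (hV : ∀ V : Fin 3 → MvPolynomial (Fin 4) ℂ, ∑ i, ∑ j, V i * cm T yy i j * V j = 0 → V = 0)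
    (q : Fin 4 → M) (hq : ∀ (e : ℕ) (H : MvPolynomial (Fin 4) ℂ), H.IsHomogeneous e →
      aeval q H = 0 → H = 0) (h3 : q 3 ≠ 0) (W : Fin 3 → M) (hW : ∀ i, W i ∈ ratioField q)
    (h0 : qf (cm T (ym q)) W = 0) : W = 0 := by
  obtain ⟨D, P, Q, hP, hQ, hPQ⟩ := exists_form3 q W hW
  set V : Fin 3 → MvPolynomial (Fin 4) ℂ := ![P 0 * X 3, P 1 * X 3, P 2] with hVd
  have e0 : V 0 = P 0 * X 3 := rfl
  have e1 : V 1 = P 1 * X 3 := rfl
  have e2 : V 2 = P 2 := rfl
  have hh : (qf (cm T yy) V).IsHomogeneous (2 * D + 3) :=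
    hom_qf (e0 ▸ (hP 0).mul (isHomogeneous_X _ _)) (e1 ▸ (hP 1).mul (isHomogeneous_X _ _))
      (e2 ▸ hP 2)
  have hval : aeval q (qf (cm T yy) V) = 0 := by
    rw [qf_cm_map, aeval_yy q h3]
    have hVq : (fun i => aeval q (V i)) =
        ![aeval q Q * (q 3 * W 0), aeval q Q * (q 3 * W 1), aeval q Q * W 2] := by
      funext i
      fin_cases i
      · change aeval q (V 0) = aeval q Q * (q 3 * W 0)
        rw [e0, map_mul, aeval_X, hPQ 0]
        ring
      · change aeval q (V 1) = aeval q Q * (q 3 * W 1)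
        rw [e1, map_mul, aeval_X, hPQ 1]
        ring
      · change aeval q (V 2) = aeval q Q * W 2
        rw [e2, hPQ 2]
    rw [hVq, qf_scale hT, h0, mul_zero]
  have hz := hV V (hq _ _ hh hval)
  have hP0 : ∀ i, P i = 0 := by
    intro i
    fin_cases i
    · have := congrFun hz 0
      rw [e0] at this
      exact (mul_eq_zero.1 this).resolve_right (X_ne_zero 3)
    · have := congrFun hz 1
      rw [e1] at this
      exact (mul_eq_zero.1 this).resolve_right (X_ne_zero 3)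
    · exact congrFun hz 2
  funext i
  have := hPQ i
  rw [hP0 i, map_zero] at this
  exact (mul_eq_zero.1 this.symm).resolve_left hQ

lemma not_alg (htr : Algebra.trdeg ℂ M = 4) (q : Fin 4 → M) (h3 : q 3 ≠ 0) :
    ¬ Algebra.IsAlgebraic (ratioField q) M := by
  intro hal
  set s : Set M := Set.range fun i : Fin 3 => q (Fin.castSucc i) / q 3 with hs
  have hgen : ∀ i, q i / q 3 ∈ IntermediateField.adjoin ℂ s := by
    intro i
    rcases Fin.eq_castSucc_or_eq_last i with ⟨j, rfl⟩ | rfl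
    · exact IntermediateField.subset_adjoin _ _ ⟨j, rfl⟩
    · change q 3 / q 3 ∈ _
      rw [div_self h3]
      exact one_mem _
  have hle : ratioField q = IntermediateField.adjoin ℂ s := by
    apply le_antisymm
    · refine IntermediateField.adjoin_le_iff.2 ?_
      rintro z ⟨i, j, rfl⟩
      have : q i / q j = (q i / q 3) / (q j / q 3) := by
        rw [div_div_div_cancel_right₀ h3]
      rw [this]
      exact div_mem (hgen i) (hgen j)
    · refine IntermediateField.adjoin_le_iff.2 ?_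
      rintro z ⟨i, rfl⟩
      exact IntermediateField.subset_adjoin _ _ ⟨_, _, rfl⟩
  rw [hle] at hal
  have h1 := IntermediateField.isAlgebraic_adjoin_iff_top.1 hal
  have h2 := Algebra.IsAlgebraic.trdeg_le_cardinalMk ℂ s
  rw [htr] at h2
  have h4 : Cardinal.mk s ≤ 3 := by
    refine Cardinal.mk_range_le.trans ?_
    simp
  have h5 : (4 : Cardinal) ≤ 3 := h2.trans h4
  exact absurd h5 (by norm_num)

lemma ym_mem (q : Fin 4 → M) (i : Fin 6) : ym q i ∈ ratioField q := by
  have h : ∀ a b, q a / q b ∈ ratioField q := fun a b =>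
    IntermediateField.subset_adjoin _ _ ⟨a, b, rfl⟩
  fin_cases i
  · exact zero_mem _
  · exact zero_mem _
  · exact h 0 3
  · exact h 1 3
  · exact h 2 3
  · exact h 3 3

omit [Algebra ℂ M] in
lemma decomp (y x' : Fin 6 → M) (hy0 : y 0 = 0) (hy1 : y 1 = 0)
    (h : ∀ i : Fin 6, 2 ≤ i.val → x' i = x' 5 * y i) :
    x' = fun i => (![x' 0, x' 1, x' 5] : Fin 3 → M) 0 * E 0 i +
      ((![x' 0, x' 1, x' 5] : Fin 3 → M) 1 * E 1 i +
        (![x' 0, x' 1, x' 5] : Fin 3 → M) 2 * y i) := by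
  funext i
  change x' i = x' 0 * E 0 i + (x' 1 * E 1 i + x' 5 * y i)
  by_cases hi0 : i = 0
  · subst hi0
    simp [E, hy0]
  · by_cases hi1 : i = 1
    · subst hi1
      simp [E, hy1]
    · have hi : 2 ≤ i.val := by
        rcases i with ⟨i, hi⟩
        simp only [Fin.ext_iff] at hi0 hi1
        change ¬ i = 0 at hi0
        change ¬ i = 1 at hi1
        change 2 ≤ i
        omega
      rw [h i hi]
      unfold E
      rw [Pi.single_eq_of_ne hi0, Pi.single_eq_of_ne hi1]
      ring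

lemma isotropic (hT : SymT T) (hL : LineT T) (y x' : Fin 6 → M) (hy0 : y 0 = 0) (hy1 : y 1 = 0)
    (h : ∀ i : Fin 6, 2 ≤ i.val → x' i = x' 5 * y i) (h5 : x' 5 ≠ 0) (hB : Bf T x' x' x' = 0) :
    qf (cm T y) ![x' 0, x' 1, x' 5] = 0 := by
  have h1 := key hT hL y ![x' 0, x' 1, x' 5]
  rw [← decomp y x' hy0 hy1 h, hB] at h1
  exact (mul_eq_zero.1 h1.symm).resolve_left h5

lemma fields (q : Fin 4 → M) (h3 : q 3 ≠ 0) (x' : Fin 6 → M) (κ : M) (hκ : κ ≠ 0)
    (h2 : x' 2 = κ * q 0) (h3' : x' 3 = κ * q 1) (h4 : x' 4 = κ * q 2) (h5 : x' 5 = κ * q 3) :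
    (IntermediateField.adjoin (ratioField q)
      {z : M | ∃ i j, z = (![x' 0, x' 1, x' 5] : Fin 3 → M) i /
        (![x' 0, x' 1, x' 5] : Fin 3 → M) j}).restrictScalars ℂ = ratioField x' := by
  have hx5 : x' 5 ≠ 0 := by
    rw [h5]
    exact mul_ne_zero hκ h3
  have hrat : ∀ i j, x' i / x' j ∈ ratioField x' := fun i j =>
    IntermediateField.subset_adjoin _ _ ⟨i, j, rfl⟩
  apply le_antisymm
  · rw [IntermediateField.restrictScalars_adjoin]
    refine IntermediateField.adjoin_le_iff.2 ?_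
    have hq : ∀ i : Fin 4, ∃ k : Fin 6, x' k = κ * q i := by
      intro i
      fin_cases i
      · exact ⟨2, h2⟩
      · exact ⟨3, h3'⟩
      · exact ⟨4, h4⟩
      · exact ⟨5, h5⟩
    have hv : ∀ i : Fin 3, ∃ k : Fin 6, (![x' 0, x' 1, x' 5] : Fin 3 → M) i = x' k := by
      intro i
      fin_cases i
      · exact ⟨0, rfl⟩
      · exact ⟨1, rfl⟩
      · exact ⟨5, rfl⟩
    rintro z (hz | ⟨i, j, rfl⟩)
    · have hle : ratioField q ≤ ratioField x' := by
        refine IntermediateField.adjoin_le_iff.2 ?_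
        rintro z ⟨i, j, rfl⟩
        obtain ⟨k, hk⟩ := hq i
        obtain ⟨l, hl⟩ := hq j
        have : q i / q j = x' k / x' l := by
          rw [hk, hl, mul_div_mul_left _ _ hκ]
        rw [this]
        exact hrat k l
      exact hle hz
    · obtain ⟨k, hk⟩ := hv i
      obtain ⟨l, hl⟩ := hv j
      rw [hk, hl]
      exact hrat k l
  · refine IntermediateField.adjoin_le_iff.2 ?_
    set S : Set M := {z : M | ∃ i j, z = (![x' 0, x' 1, x' 5] : Fin 3 → M) i /
        (![x' 0, x' 1, x' 5] : Fin 3 → M) j} with hS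
    have hK : ∀ i j, q i / q j ∈ IntermediateField.adjoin (ratioField q) S := by
      intro i j
      exact (IntermediateField.adjoin (ratioField q) S).algebraMap_mem
        (⟨q i / q j, IntermediateField.subset_adjoin _ _ ⟨i, j, rfl⟩⟩ : ratioField q)
    have hg : ∀ i, x' i / x' 5 ∈ IntermediateField.adjoin (ratioField q) S := by
      intro i
      fin_cases i
      · exact IntermediateField.subset_adjoin _ _ ⟨0, 2, rfl⟩
      · exact IntermediateField.subset_adjoin _ _ ⟨1, 2, rfl⟩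
      · change x' 2 / x' 5 ∈ _
        rw [h2, h5, mul_div_mul_left _ _ hκ]
        exact hK 0 3
      · change x' 3 / x' 5 ∈ _
        rw [h3', h5, mul_div_mul_left _ _ hκ]
        exact hK 1 3
      · change x' 4 / x' 5 ∈ _
        rw [h4, h5, mul_div_mul_left _ _ hκ]
        exact hK 2 3
      · change x' 5 / x' 5 ∈ _
        rw [div_self hx5]
        exact one_mem _
    rintro z ⟨i, j, rfl⟩
    have : x' i / x' j = (x' i / x' 5) / (x' j / x' 5) := by
      rw [div_div_div_cancel_right₀ hx5]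
    rw [this]
    exact div_mem (hg i) (hg j)

end Fields

theorem cb (h : S_CONIC) : S_CB := by
  intro T hT hL hV M _ _ htr x hx hq hrat lam hlam hlam2
  obtain ⟨q, hqd⟩ : ∃ q : Fin 4 → M, q = ![x 2, x 3, x 4, x 5] := ⟨_, rfl⟩
  rw [← hqd] at hq
  have q0 : q 0 = x 2 := by rw [hqd]; rfl
  have q1 : q 1 = x 3 := by rw [hqd]; rfl
  have q2 : q 2 = x 4 := by rw [hqd]; rfl
  have q3 : q 3 = x 5 := by rw [hqd]; rfl
  have hq3 : q 3 ≠ 0 := by
    intro h0
    exact X_ne_zero (3 : Fin 4) (hq 1 (X 3) (isHomogeneous_X _ _) (by rw [aeval_X]; exact h0))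
  have hx5 : x 5 ≠ 0 := q3 ▸ hq3
  have hy0 : ym q 0 = 0 := rfl
  have hy1 : ym q 1 = 0 := rfl
  have hxy : ∀ i : Fin 6, 2 ≤ i.val → x i = x 5 * ym q i := by
    intro i hi
    fin_cases i
    · exact absurd hi (by decide)
    · exact absurd hi (by decide)
    · change x 2 = x 5 * (q 0 / q 3)
      rw [q0, q3, mul_div_cancel₀ _ hx5]
    · change x 3 = x 5 * (q 1 / q 3)
      rw [q1, q3, mul_div_cancel₀ _ hx5]
    · change x 4 = x 5 * (q 2 / q 3)
      rw [q2, q3, mul_div_cancel₀ _ hx5]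
    · change x 5 = x 5 * (q 3 / q 3)
      rw [q3, mul_div_cancel₀ _ hx5]
  have han : ∀ W : Fin 3 → M, (∀ i, W i ∈ ratioField q) → qf (cm T (ym q)) W = 0 → W = 0 :=
    fun W hW h0 => aniso hT hV q hq hq3 W hW h0
  -- the conic over the field of ratios
  let yK : Fin 6 → ratioField q := fun i => ⟨ym q i, ym_mem q i⟩
  have hA : ∀ i j, algebraMap (ratioField q) M (cm T yK i j) = cm T (ym q) i j := fun i j =>
    cm_map (ratioField q).val yK i j
  have hchar : CharZero (ratioField q) :=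
    charZero_of_injective_algebraMap (algebraMap ℂ (ratioField q)).injective
  have hanK : ∀ w : Fin 3 → ratioField q, ∑ i, ∑ j, w i * cm T yK i j * w j = 0 → w = 0 := by
    intro w hw
    have h1 : (ratioField q).val (qf (cm T yK) w) = 0 := by
      change (ratioField q).val (∑ i, ∑ j, w i * cm T yK i j * w j) = 0
      rw [hw, map_zero]
    rw [qf_cm_map] at h1
    have h2 := han (fun i => (w i : M)) (fun i => (w i).2) h1
    funext i
    exact Subtype.ext (congrFun h2 i)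
  have hgen : IntermediateField.adjoin (ratioField q)
      {z : M | ∃ i j, z = (![x 0, x 1, x 5] : Fin 3 → M) i /
        (![x 0, x 1, x 5] : Fin 3 → M) j} = ⊤ := by
    have h1 := fields q hq3 x 1 one_ne_zero (by rw [q0, one_mul]) (by rw [q1, one_mul])
      (by rw [q2, one_mul]) (by rw [q3, one_mul])
    rw [hrat] at h1
    exact IntermediateField.restrictScalars_eq_top_iff.1 h1
  have hiso : ∑ i, ∑ j, (![x 0, x 1, x 5] : Fin 3 → M) i *
      algebraMap (ratioField q) M (cm T yK i j) * (![x 0, x 1, x 5] : Fin 3 → M) j = 0 := by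
    simp only [hA]
    exact isotropic hT hL (ym q) x hy0 hy1 hxy hx5 hx
  obtain ⟨c1, c2⟩ := h (ratioField q) M (cm T yK) (cm_symm yK) hanK (not_alg htr q hq3)
    ![x 0, x 1, x 5] hiso hgen
  -- the vector `lam`
  have hlE : lam = fun i => lam 0 * E 0 i + lam 1 * E 1 i := by
    have h1 := decomp (M := M) (fun _ => 0) lam rfl rfl (fun i hi => by rw [hlam2 i hi, mul_zero])
    funext i
    have h2 := congrFun h1 i
    change lam i = lam 0 * E 0 i + (lam 1 * E 1 i + lam 5 * 0) at h2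
    rw [mul_zero, add_zero] at h2
    exact h2
  have e000 : Bf T (E 0 : Fin 6 → M) (E 0) (E 0) = 0 := Bf_E0 hL (by decide) (by decide) (by decide)
  have e001 : Bf T (E 0 : Fin 6 → M) (E 0) (E 1) = 0 := Bf_E0 hL (by decide) (by decide) (by decide)
  have e010 : Bf T (E 0 : Fin 6 → M) (E 1) (E 0) = 0 := Bf_E0 hL (by decide) (by decide) (by decide)
  have e011 : Bf T (E 0 : Fin 6 → M) (E 1) (E 1) = 0 := Bf_E0 hL (by decide) (by decide) (by decide)
  have e100 : Bf T (E 1 : Fin 6 → M) (E 0) (E 0) = 0 := Bf_E0 hL (by decide) (by decide) (by decide)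
  have e101 : Bf T (E 1 : Fin 6 → M) (E 0) (E 1) = 0 := Bf_E0 hL (by decide) (by decide) (by decide)
  have e110 : Bf T (E 1 : Fin 6 → M) (E 1) (E 0) = 0 := Bf_E0 hL (by decide) (by decide) (by decide)
  have e111 : Bf T (E 1 : Fin 6 → M) (E 1) (E 1) = 0 := Bf_E0 hL (by decide) (by decide) (by decide)
  have hlll : Bf T lam lam lam = 0 := by
    rw [hlE]
    simp only [Bf_add1, Bf_add2 hT, Bf_add3 hT, Bf_smul1, Bf_smul2 hT, Bf_smul3 hT, e000, e001,
      e010, e011, e100, e101, e110, e111, mul_zero, add_zero]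
  have hgl : ∀ a b : M, Bf T (fun i => a * E 0 i + b * E 1 i) (fun i => a * E 0 i + b * E 1 i) x =
      x 5 * (a ^ 2 * Bf T (E 0) (E 0) (ym q) +
      2 * a * b * Bf T (E 0) (E 1) (ym q) + b ^ 2 * Bf T (E 1) (E 1) (ym q)) := by
    intro a b
    have hxd := decomp (ym q) x hy0 hy1 hxy
    have hxd' : x = fun i => x 0 * E 0 i + (x 1 * E 1 i + x 5 * ym q i) := hxd
    conv_lhs => rw [hxd']
    simp only [Bf_add1, Bf_add2 hT, Bf_add3 hT, Bf_smul1, Bf_smul2 hT, Bf_smul3 hT, e000, e001,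
      e010, e011, e100, e101, e110, e111, mul_zero, add_zero, zero_add]
    rw [Bf_comm12 hT (E 1) (E 0) (ym q)]
    ring
  have hllx := hgl (lam 0) (lam 1)
  rw [← hlE] at hllx
  have hm0 : (0 : M) ∈ ratioField q := zero_mem _
  have hm1 : (1 : M) ∈ ratioField q := one_mem _
  have hqf0 : ∀ a b : M, qf (cm T (ym q)) ![a, b, 0] = 3 * (a ^ 2 * Bf T (E 0) (E 0) (ym q) +
      2 * a * b * Bf T (E 0) (E 1) (ym q) + b ^ 2 * Bf T (E 1) (E 1) (ym q)) := by
    intro a b
    rw [qf_cm]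
    simp only [Matrix.cons_val_zero, Matrix.cons_val_one, Matrix.cons_val_two, Matrix.head_cons,
      Matrix.tail_cons]
    ring
  have hiso2 : ∀ a b : M, a ∈ ratioField q → b ∈ ratioField q →
      a ^ 2 * Bf T (E 0) (E 0) (ym q) + 2 * a * b * Bf T (E 0) (E 1) (ym q) +
        b ^ 2 * Bf T (E 1) (E 1) (ym q) = 0 → a = 0 ∧ b = 0 := by
    intro a b ha hb hab
    have h1 := han ![a, b, 0] (by
      intro i
      fin_cases i
      · exact ha
      · exact hb
      · exact hm0) (by rw [hqf0, hab, mul_zero])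
    exact ⟨congrFun h1 0, congrFun h1 1⟩
  have hb11 : Bf T (E 1) (E 1) (ym q) ≠ 0 := by
    intro h0
    have := hiso2 0 1 hm0 hm1 (by rw [h0]; ring)
    exact one_ne_zero this.2
  have hb00 : Bf T (E 0) (E 0) (ym q) ≠ 0 := by
    intro h0
    have := hiso2 1 0 hm1 hm0 (by rw [h0]; ring)
    exact one_ne_zero this.1
  have hκ : Bf T lam lam x ≠ 0 := by
    intro hk
    rw [hllx] at hk
    have hk' := (mul_eq_zero.1 hk).resolve_left hx5
    have hl0 : lam 0 ≠ 0 := by
      intro h0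
      rw [h0] at hk'
      have h1 : lam 1 ^ 2 * Bf T (E 1) (E 1) (ym q) = 0 := by linear_combination hk'
      have h2 : lam 1 = 0 := by
        have := (mul_eq_zero.1 h1).resolve_right hb11
        exact pow_eq_zero_iff (two_ne_zero) |>.1 this
      apply hlam
      rw [hlE, h0, h2]
      funext i
      simp
    set ρ : M := lam 1 / lam 0 with hρ
    have hρ0 : Bf T (E 1) (E 1) (ym q) * ρ ^ 2 + 2 * Bf T (E 0) (E 1) (ym q) * ρ +
        Bf T (E 0) (E 0) (ym q) = 0 := by
      rw [hρ]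
      field_simp
      linear_combination hk'
    have halg : IsAlgebraic (ratioField q) ρ := by
      refine ⟨Polynomial.C (Bf T (E 1) (E 1) yK) * Polynomial.X ^ 2 +
        Polynomial.C (2 * Bf T (E 0) (E 1) yK) * Polynomial.X + Polynomial.C (Bf T (E 0) (E 0) yK),
        ?_, ?_⟩
      · intro h0
        have h1 := congrArg (fun p => Polynomial.coeff p 0) h0
        simp only [Polynomial.coeff_add, Polynomial.coeff_C_mul, Polynomial.coeff_X_pow,
          Polynomial.coeff_X_zero, Polynomial.coeff_C_zero, Polynomial.coeff_zero] at h1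
        norm_num at h1
        apply hb00
        have h2 := congrArg (ratioField q).val h1
        rw [Bf_map, map_zero, E_map] at h2
        exact h2
      · simp only [map_add, map_mul, map_pow, Polynomial.aeval_C, Polynomial.aeval_X, map_ofNat]
        have e1 : algebraMap (ratioField q) M (Bf T (E 1) (E 1) yK) = Bf T (E 1) (E 1) (ym q) := by
          have := Bf_map (T := T) (ratioField q).val (E 1) (E 1) yK
          rw [E_map] at this
          exact this
        have e2 : algebraMap (ratioField q) M (Bf T (E 0) (E 1) yK) = Bf T (E 0) (E 1) (ym q) := by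
          have := Bf_map (T := T) (ratioField q).val (E 0) (E 1) yK
          rw [E_map, E_map] at this
          exact this
        have e3 : algebraMap (ratioField q) M (Bf T (E 0) (E 0) yK) = Bf T (E 0) (E 0) (ym q) := by
          have := Bf_map (T := T) (ratioField q).val (E 0) (E 0) yK
          rw [E_map] at this
          exact this
        rw [e1, e2, e3]
        exact hρ0
    obtain ⟨a, ha⟩ := c1 ρ halg
    have hρm : ρ ∈ ratioField q := by
      rw [ha]
      exact a.2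
    have := hiso2 1 ρ hm1 hρm (by linear_combination hρ0)
    exact one_ne_zero this.1
  refine ⟨hκ, ?_⟩
  set κ : M := Bf T lam lam x with hκd
  set β : M := Bf T lam x x with hβ
  obtain ⟨x', hx'⟩ : ∃ x' : Fin 6 → M, x' = fun i => κ * x i - β * lam i := ⟨_, rfl⟩
  rw [← hx']
  have hx'2 : ∀ i : Fin 6, 2 ≤ i.val → x' i = κ * x i := by
    intro i hi
    rw [hx']
    simp only
    rw [hlam2 i hi, mul_zero, sub_zero]
  have hx'5 : x' 5 ≠ 0 := by
    rw [hx'2 5 (by decide)]
    exact mul_ne_zero hκ hx5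
  have hx'y : ∀ i : Fin 6, 2 ≤ i.val → x' i = x' 5 * ym q i := by
    intro i hi
    rw [hx'2 i hi, hx'2 5 (by decide), hxy i hi]
    ring
  have hB' : Bf T x' x' x' = 0 := by
    have e : x' = fun i => κ * x i + (-β) * lam i := by
      rw [hx']
      funext i
      ring
    rw [e]
    simp only [Bf_add1, Bf_add2 hT, Bf_add3 hT, Bf_smul1, Bf_smul2 hT, Bf_smul3 hT]
    rw [hx, hlll, Bf_comm23 hT x x lam, Bf_comm12 hT x lam x, ← hβ, Bf_comm12 hT x lam lam,
      Bf_comm23 hT lam x lam, ← hκd]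
    ring
  have hfin := c2 ![x' 0, x' 1, x' 5] (by
    intro h0
    exact hx'5 (congrFun h0 2)) (by
    simp only [hA]
    exact isotropic hT hL (ym q) x' hy0 hy1 hx'y hx'5 hB')
  have hfe := fields q hq3 x' κ hκ (by rw [q0, hx'2 2 (by decide)])
    (by rw [q1, hx'2 3 (by decide)]) (by rw [q2, hx'2 4 (by decide)])
    (by rw [q3, hx'2 5 (by decide)])
  rw [← hfe]
  exact hfin

end

end Pool.Agent.Y246.C3
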